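import Mathlib
import Pool.Agent.H759R2.Kad.Props7

open scoped ComplexOrder InnerProductSpace ComplexConjugate
open Finset

noncomputable section

namespace H759R2.Kad

universe u v

theorem prove7_rep (h1 : G_jord.{u}) (h2 : G_univ.{u}) : G_rep.{u} := by
  intro A _
  obtain ⟨K, i1, i2, i3, π, Ω, hΩ, hΩ0⟩ := h2 A
    (ULift.{u} (Fin 4) × {φ : A →ₗ[ℂ] ℂ // ∀ a, 0 ≤ φ (star a * a)})
    (fun p => p.2.1) (fun p => p.2.2)
  refine ⟨K, i1, i2, i3, π, ?_⟩
  intro f C hC hf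
  obtain ⟨φ, hφ, hfφ⟩ := h1 A f C hC hf
  let o : Fin 4 → K := fun k => Ω (⟨k⟩, ⟨φ k, (hφ k).1⟩)
  have hoo : ∀ k a, ⟪o k, π a (o k)⟫_ℂ = φ k a := fun k a => hΩ _ a
  have ho0 : ∀ k l a, k ≠ l → ⟪o k, π a (o l)⟫_ℂ = 0 := by
    intro k l a hkl
    apply hΩ0
    intro h
    apply hkl
    have := congrArg (fun p => p.1.down) h
    exact this
  have key : ∀ (c d : Fin 4 → ℂ) (a : A),
      ⟪∑ k, c k • o k, π a (∑ k, d k • o k)⟫_ℂ = ∑ k, conj (c k) * d k * φ k a := by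
    intro c d a
    rw [map_sum, sum_inner]
    apply Finset.sum_congr rfl
    intro k _
    rw [inner_sum, Finset.sum_eq_single k]
    · rw [map_smul, inner_smul_left, inner_smul_right, hoo, mul_assoc]
    · intro l _ hl
      rw [map_smul, inner_smul_left, inner_smul_right, ho0 k l a (Ne.symm hl), mul_zero, mul_zero]
    · intro h; exact absurd (Finset.mem_univ k) h
  have hnorm : ∀ c : Fin 4 → ℂ, (∀ k, ‖c k‖ = 1) → ‖∑ k, c k • o k‖ ^ 2 ≤ 4 * C := by
    intro c hc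
    have h3 := key c c 1
    rw [map_one, ContinuousLinearMap.one_apply] at h3
    have h4 : ∀ k, conj (c k) * c k = 1 := by
      intro k
      rw [← Complex.normSq_eq_conj_mul_self, Complex.normSq_eq_norm_sq, hc k]
      simp
    simp only [h4, one_mul] at h3
    have h5 := congrArg Complex.re h3
    rw [Complex.re_sum] at h5
    have h6 : ‖∑ k, c k • o k‖ ^ 2 = (⟪∑ k, c k • o k, ∑ k, c k • o k⟫_ℂ).re := by
      rw [← inner_self_eq_norm_sq (𝕜 := ℂ)]
      rfl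
    rw [h6, h5]
    calc ∑ k : Fin 4, (φ k 1).re ≤ ∑ _k : Fin 4, C := Finset.sum_le_sum (fun k _ => (hφ k).2)
      _ = 4 * C := by simp
  refine ⟨∑ k : Fin 4, (conj (Complex.I ^ (k : ℕ))) • o k, ∑ k, (1 : ℂ) • o k, ?_, ?_⟩
  · intro a
    rw [key, hfφ]
    apply Finset.sum_congr rfl
    intro k _
    simp
  · have h7 := hnorm (fun k : Fin 4 => conj (Complex.I ^ (k : ℕ))) (by intro k; simp)
    have h8 := hnorm (fun _ => 1) (by intro k; simp)
    have h9 := norm_nonneg (∑ k : Fin 4, (conj (Complex.I ^ (k : ℕ))) • o k)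
    have h10 := norm_nonneg (∑ k : Fin 4, (1 : ℂ) • o k)
    nlinarith [sq_nonneg (‖∑ k : Fin 4, (conj (Complex.I ^ (k : ℕ))) • o k‖
      - ‖∑ k : Fin 4, (1 : ℂ) • o k‖)]

end H759R2.Kad
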